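import Mathlib
import Pool.Agent.H373R2.NB.FourierZ

/-!
# Correlations along families with few large Fourier coefficients

Let `u` be a function on `ZMod M` with small Fourier coefficients and `c` a finite family of points
with few large Fourier coefficients. Then the autocorrelation of `u` is small at almost all
differences of the family, and all multilinear averages `∑ x, w x * ∏ l, Φ l (x + c l (i l))` in which
one of the functions is `u` and its family is `c` are small for almost all tuples of indices.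
-/

set_option autoImplicit false

namespace Pool.Agent.Y834.CD

open Finset
open Pool.Agent.H373R2.NB (hat cor parseval sum_cor_sq norm_chi sum_chi)

variable {M : ℕ} [NeZero M]

/-- the exponential sum of a family -/
noncomputable def fam {ι : Type*} [Fintype ι] (c : ι → ZMod M) (ξ : ZMod M) : ℂ :=
  ∑ i, (ZMod.stdAddChar (ξ * c i) : ℂ)

theorem norm_fam_le {ι : Type*} [Fintype ι] (c : ι → ZMod M) (ξ : ZMod M) :
    ‖fam c ξ‖ ≤ Fintype.card ι := by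
  unfold fam
  refine (norm_sum_le _ _).trans ?_
  simp [norm_chi]

/-- the autocorrelation is small at almost all differences of a family with few large Fourier
coefficients -/
theorem cor_small {ι : Type*} [Fintype ι] (u : ZMod M → ℝ) (c : ι → ZMod M) {E τ K U : ℝ}
    (hE : ∀ ξ, ‖hat u ξ‖ ≤ E) (hU : ∑ m, u m ^ 2 ≤ U)
    (hK : (((univ : Finset (ZMod M)).filter (fun ξ => τ * Fintype.card ι ≤ ‖fam c ξ‖)).card : ℝ) ≤ K) :
    (M : ℝ) ^ 2 * ∑ i, ∑ j, cor u (c i - c j) ^ 2 ≤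
      (Fintype.card ι : ℝ) ^ 2 * (M * U) * (K * E ^ 2 + τ ^ 2 * (M * U)) := by
  classical
  have hM : (0 : ℝ) < M := by exact_mod_cast Nat.pos_of_ne_zero (NeZero.ne M)
  have hE0 : 0 ≤ E := (norm_nonneg _).trans (hE 0)
  have hU0 : 0 ≤ U := (sum_nonneg fun m _ => sq_nonneg _).trans hU
  have hK0 : 0 ≤ K := (Nat.cast_nonneg _).trans hK
  set n : ℝ := (Fintype.card ι : ℝ) with hn
  have hn0 : 0 ≤ n := Nat.cast_nonneg _
  have hP : ∑ ξ, ‖hat u ξ‖ ^ 2 ≤ M * U := by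
    rw [parseval]; exact mul_le_mul_of_nonneg_left hU hM.le
  rw [sum_cor_sq u univ c]
  have inner : ∀ ξ : ZMod M, ∑ ξ' : ZMod M, ‖hat u ξ'‖ ^ 2 *
      ‖∑ i, (ZMod.stdAddChar ((ξ - ξ') * c i) : ℂ)‖ ^ 2 ≤ n ^ 2 * (K * E ^ 2 + τ ^ 2 * (M * U)) := by
    intro ξ
    have h1 : ∀ ξ' : ZMod M, ‖hat u ξ'‖ ^ 2 * ‖∑ i, (ZMod.stdAddChar ((ξ - ξ') * c i) : ℂ)‖ ^ 2 ≤
        (if τ * n ≤ ‖fam c (ξ - ξ')‖ then E ^ 2 * n ^ 2 else 0) + ‖hat u ξ'‖ ^ 2 * (τ ^ 2 * n ^ 2) := by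
      intro ξ'
      change ‖hat u ξ'‖ ^ 2 * ‖fam c (ξ - ξ')‖ ^ 2 ≤ _
      by_cases h : τ * n ≤ ‖fam c (ξ - ξ')‖
      · rw [if_pos h]
        have h2 : ‖hat u ξ'‖ ^ 2 ≤ E ^ 2 := pow_le_pow_left₀ (norm_nonneg _) (hE ξ') 2
        have h3 : ‖fam c (ξ - ξ')‖ ^ 2 ≤ n ^ 2 := pow_le_pow_left₀ (norm_nonneg _) (norm_fam_le c _) 2
        have h4 : ‖hat u ξ'‖ ^ 2 * ‖fam c (ξ - ξ')‖ ^ 2 ≤ E ^ 2 * n ^ 2 :=
          mul_le_mul h2 h3 (sq_nonneg _) (sq_nonneg _)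
        have h5 : 0 ≤ ‖hat u ξ'‖ ^ 2 * (τ ^ 2 * n ^ 2) := by positivity
        linarith
      · rw [if_neg h, zero_add]
        push Not at h
        apply mul_le_mul_of_nonneg_left _ (sq_nonneg _)
        rw [← mul_pow]
        exact pow_le_pow_left₀ (norm_nonneg _) h.le 2
    refine (sum_le_sum fun ξ' _ => h1 ξ').trans ?_
    rw [sum_add_distrib, ← sum_mul]
    have h2 : ∑ ξ' : ZMod M, (if τ * n ≤ ‖fam c (ξ - ξ')‖ then E ^ 2 * n ^ 2 else 0) ≤ K * (E ^ 2 * n ^ 2) := by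
      have h3 : ∑ ξ' : ZMod M, (if τ * n ≤ ‖fam c (ξ - ξ')‖ then E ^ 2 * n ^ 2 else 0) =
          ∑ η : ZMod M, (if τ * n ≤ ‖fam c η‖ then E ^ 2 * n ^ 2 else 0) :=
        Fintype.sum_equiv (Equiv.subLeft ξ) _ _ (fun ξ' => by simp)
      rw [h3, ← sum_filter, sum_const, nsmul_eq_mul]
      exact mul_le_mul_of_nonneg_right hK (by positivity)
    have h3 : (∑ ξ' : ZMod M, ‖hat u ξ'‖ ^ 2) * (τ ^ 2 * n ^ 2) ≤ (M * U) * (τ ^ 2 * n ^ 2) :=
      mul_le_mul_of_nonneg_right hP (by positivity)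
    calc _ ≤ K * (E ^ 2 * n ^ 2) + (M * U) * (τ ^ 2 * n ^ 2) := add_le_add h2 h3
      _ = _ := by ring
  have hB : 0 ≤ n ^ 2 * (K * E ^ 2 + τ ^ 2 * (M * U)) := by positivity
  calc ∑ ξ, ∑ ξ', ‖hat u ξ‖ ^ 2 * ‖hat u ξ'‖ ^ 2 * ‖∑ i, (ZMod.stdAddChar ((ξ - ξ') * c i) : ℂ)‖ ^ 2
      = ∑ ξ, ‖hat u ξ‖ ^ 2 * ∑ ξ', ‖hat u ξ'‖ ^ 2 * ‖∑ i, (ZMod.stdAddChar ((ξ - ξ') * c i) : ℂ)‖ ^ 2 := by
        apply sum_congr rfl; intro ξ _
        rw [mul_sum]
        apply sum_congr rfl; intro ξ' _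
        ring
    _ ≤ ∑ ξ, ‖hat u ξ‖ ^ 2 * (n ^ 2 * (K * E ^ 2 + τ ^ 2 * (M * U))) :=
        sum_le_sum fun ξ _ => mul_le_mul_of_nonneg_left (inner ξ) (sq_nonneg _)
    _ = (∑ ξ, ‖hat u ξ‖ ^ 2) * (n ^ 2 * (K * E ^ 2 + τ ^ 2 * (M * U))) := by rw [sum_mul]
    _ ≤ (M * U) * (n ^ 2 * (K * E ^ 2 + τ ^ 2 * (M * U))) := mul_le_mul_of_nonneg_right hP hB
    _ = _ := by ring

/-- the Gram kernel of a function along a family -/
noncomputable def ker {ι : Type*} [Fintype ι] (u : ZMod M → ℝ) (c : ι → ZMod M) (x y : ZMod M) : ℝ :=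
  ∑ i, u (x + c i) * u (y + c i)

theorem sum_ker_sq {ι : Type*} [Fintype ι] (u : ZMod M → ℝ) (c : ι → ZMod M) :
    ∑ x, ∑ y, ker u c x y ^ 2 = ∑ i, ∑ j, cor u (c i - c j) ^ 2 := by
  have h1 : ∀ i j : ι, ∑ x : ZMod M, u (x + c j) * u (x + c i) = cor u (c i - c j) := by
    intro i j
    unfold cor
    refine Fintype.sum_equiv (Equiv.addRight (c j)) _ _ (fun x => ?_)
    simp only [Equiv.coe_addRight]
    rw [show x + c j + (c i - c j) = x + c i by ring]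
  have h2 : ∀ x y : ZMod M, ker u c x y ^ 2 =
      ∑ i, ∑ j, (u (x + c j) * u (x + c i)) * (u (y + c j) * u (y + c i)) := by
    intro x y
    unfold ker
    rw [sq, sum_mul_sum]
    apply sum_congr rfl; intro i _
    apply sum_congr rfl; intro j _
    ring
  have h3 : ∑ x : ZMod M, ∑ y : ZMod M, ∑ i : ι, ∑ j : ι,
      (u (x + c j) * u (x + c i)) * (u (y + c j) * u (y + c i)) =
      ∑ i : ι, ∑ j : ι, ∑ x : ZMod M, ∑ y : ZMod M,
        (u (x + c j) * u (x + c i)) * (u (y + c j) * u (y + c i)) := by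
    calc _ = ∑ x : ZMod M, ∑ i : ι, ∑ j : ι, ∑ y : ZMod M,
          (u (x + c j) * u (x + c i)) * (u (y + c j) * u (y + c i)) := by
          apply sum_congr rfl; intro x _
          rw [sum_comm]
          apply sum_congr rfl; intro i _
          rw [sum_comm]
      _ = _ := by
          rw [sum_comm]
          apply sum_congr rfl; intro i _
          rw [sum_comm]
  simp_rw [h2]
  rw [h3]
  apply sum_congr rfl; intro i _
  apply sum_congr rfl; intro j _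
  rw [← h1 i j, sq, sum_mul_sum]

theorem sum_abs_ker_sq {ι : Type*} [Fintype ι] (u : ZMod M → ℝ) (c : ι → ZMod M) :
    (∑ x, ∑ y, |ker u c x y|) ^ 2 ≤ (M : ℝ) ^ 2 * ∑ i, ∑ j, cor u (c i - c j) ^ 2 := by
  rw [← sum_ker_sq]
  have h1 : (∑ x : ZMod M, ∑ y : ZMod M, |ker u c x y|) ^ 2 ≤ M * ∑ x : ZMod M, (∑ y : ZMod M, |ker u c x y|) ^ 2 := by
    have := sq_sum_le_card_mul_sum_sq (s := (univ : Finset (ZMod M))) (f := fun x => ∑ y : ZMod M, |ker u c x y|)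
    simpa [card_univ, ZMod.card] using this
  have h2 : ∀ x : ZMod M, (∑ y : ZMod M, |ker u c x y|) ^ 2 ≤ M * ∑ y : ZMod M, ker u c x y ^ 2 := by
    intro x
    have := sq_sum_le_card_mul_sum_sq (s := (univ : Finset (ZMod M))) (f := fun y => |ker u c x y|)
    simpa [card_univ, ZMod.card, sq_abs] using this
  calc _ ≤ M * ∑ x : ZMod M, (∑ y : ZMod M, |ker u c x y|) ^ 2 := h1
    _ ≤ M * ∑ x : ZMod M, (M * ∑ y : ZMod M, ker u c x y ^ 2) :=
        mul_le_mul_of_nonneg_left (sum_le_sum fun x _ => h2 x) (Nat.cast_nonneg _)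
    _ = _ := by rw [← mul_sum]; ring

/-- the multilinear inequality -/
theorem multilinear {κ : Type*} [Fintype κ] [DecidableEq κ] {ι : κ → Type*} [∀ l, Fintype (ι l)]
    (c : ∀ l, ι l → ZMod M) (Φ : κ → ZMod M → ℝ) (hΦ : ∀ l x, |Φ l x| ≤ 1) (w : ZMod M → ℝ)
    (hw : ∀ x, |w x| ≤ 1) (j : κ) :
    ∑ v : (∀ l, ι l), (∑ x, w x * ∏ l, Φ l (x + c l (v l))) ^ 2 ≤
      (∏ l ∈ univ.erase j, (Fintype.card (ι l) : ℝ)) * ∑ x, ∑ y, |ker (Φ j) (c j) x y| := by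
  have h1 : ∀ v : (∀ l, ι l), (∑ x, w x * ∏ l, Φ l (x + c l (v l))) ^ 2 =
      ∑ x, ∑ y, (w x * w y) * ∏ l, (Φ l (x + c l (v l)) * Φ l (y + c l (v l))) := by
    intro v
    rw [sq, sum_mul_sum]
    apply sum_congr rfl; intro x _
    apply sum_congr rfl; intro y _
    rw [prod_mul_distrib]; ring
  have h2 : ∑ v : (∀ l, ι l), (∑ x, w x * ∏ l, Φ l (x + c l (v l))) ^ 2 =
      ∑ x, ∑ y, (w x * w y) * ∏ l, ker (Φ l) (c l) x y := by
    simp_rw [h1]
    rw [sum_comm]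
    apply sum_congr rfl; intro x _
    rw [sum_comm]
    apply sum_congr rfl; intro y _
    rw [← mul_sum]
    congr 1
    unfold ker
    rw [Finset.prod_univ_sum]
    rw [Fintype.piFinset_univ]
  rw [h2, mul_sum]
  apply sum_le_sum; intro x _
  rw [mul_sum]
  apply sum_le_sum; intro y _
  have h3 : |w x * w y| ≤ 1 := by
    rw [abs_mul]; exact mul_le_one₀ (hw x) (abs_nonneg _) (hw y)
  have h4 : ∀ l, |ker (Φ l) (c l) x y| ≤ Fintype.card (ι l) := by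
    intro l
    unfold ker
    refine (abs_sum_le_sum_abs _ _).trans ?_
    calc ∑ i, |Φ l (x + c l i) * Φ l (y + c l i)| ≤ ∑ _i : ι l, (1 : ℝ) := by
          apply sum_le_sum; intro i _
          rw [abs_mul]; exact mul_le_one₀ (hΦ l _) (abs_nonneg _) (hΦ l _)
      _ = _ := by simp
  calc (w x * w y) * ∏ l, ker (Φ l) (c l) x y ≤ |(w x * w y) * ∏ l, ker (Φ l) (c l) x y| := le_abs_self _
    _ = |w x * w y| * ∏ l, |ker (Φ l) (c l) x y| := by rw [abs_mul, abs_prod]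
    _ ≤ 1 * ∏ l, |ker (Φ l) (c l) x y| :=
        mul_le_mul_of_nonneg_right h3 (prod_nonneg fun l _ => abs_nonneg _)
    _ = (∏ l ∈ univ.erase j, |ker (Φ l) (c l) x y|) * |ker (Φ j) (c j) x y| := by
        rw [one_mul, prod_erase_mul _ _ (mem_univ j)]
    _ ≤ (∏ l ∈ univ.erase j, (Fintype.card (ι l) : ℝ)) * |ker (Φ j) (c j) x y| := by
        apply mul_le_mul_of_nonneg_right _ (abs_nonneg _)
        exact prod_le_prod (fun l _ => abs_nonneg _) (fun l _ => h4 l)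

/-- the multilinear average of a function with small Fourier coefficients along a family with few
large Fourier coefficients -/
theorem multilinear_small {κ : Type*} [Fintype κ] [DecidableEq κ] {ι : κ → Type*} [∀ l, Fintype (ι l)]
    (c : ∀ l, ι l → ZMod M) (Φ : κ → ZMod M → ℝ) (hΦ : ∀ l x, |Φ l x| ≤ 1) (w : ZMod M → ℝ)
    (hw : ∀ x, |w x| ≤ 1) (j : κ) {E τ K B : ℝ} (hE : ∀ ξ, ‖hat (Φ j) ξ‖ ≤ E)
    (hK : (((univ : Finset (ZMod M)).filter (fun ξ => τ * Fintype.card (ι j) ≤ ‖fam (c j) ξ‖)).card : ℝ) ≤ K)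
    (hB0 : 0 ≤ B) (hB : (M : ℝ) ^ 2 * (K * E ^ 2 + τ ^ 2 * M ^ 2) ≤ B ^ 2) :
    ∑ v : (∀ l, ι l), (∑ x, w x * ∏ l, Φ l (x + c l (v l))) ^ 2 ≤
      (∏ l, (Fintype.card (ι l) : ℝ)) * B := by
  have hM : (0 : ℝ) < M := by exact_mod_cast Nat.pos_of_ne_zero (NeZero.ne M)
  have hU : ∑ m, Φ j m ^ 2 ≤ (M : ℝ) := by
    calc ∑ m, Φ j m ^ 2 ≤ ∑ _m : ZMod M, (1 : ℝ) := by
          apply sum_le_sum; intro m _
          rw [← sq_abs]
          exact pow_le_one₀ (abs_nonneg _) (hΦ j m)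
      _ = M := by simp [card_univ, ZMod.card]
  have h1 := cor_small (Φ j) (c j) hE hU hK
  have h2 := sum_abs_ker_sq (Φ j) (c j)
  have h3 : (∑ x, ∑ y, |ker (Φ j) (c j) x y|) ^ 2 ≤ ((Fintype.card (ι j) : ℝ) * B) ^ 2 := by
    refine h2.trans (h1.trans ?_)
    calc (Fintype.card (ι j) : ℝ) ^ 2 * (M * M) * (K * E ^ 2 + τ ^ 2 * (M * M))
        = (Fintype.card (ι j) : ℝ) ^ 2 * ((M : ℝ) ^ 2 * (K * E ^ 2 + τ ^ 2 * M ^ 2)) := by ring
      _ ≤ (Fintype.card (ι j) : ℝ) ^ 2 * B ^ 2 := mul_le_mul_of_nonneg_left hB (sq_nonneg _)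
      _ = _ := by ring
  have h4 : ∑ x, ∑ y, |ker (Φ j) (c j) x y| ≤ (Fintype.card (ι j) : ℝ) * B := by
    have h5 : 0 ≤ (Fintype.card (ι j) : ℝ) * B := by positivity
    exact (abs_le_of_sq_le_sq' h3 h5).2
  refine (multilinear c Φ hΦ w hw j).trans ?_
  calc _ ≤ (∏ l ∈ univ.erase j, (Fintype.card (ι l) : ℝ)) * ((Fintype.card (ι j) : ℝ) * B) :=
        mul_le_mul_of_nonneg_left h4 (prod_nonneg fun l _ => Nat.cast_nonneg _)
    _ = (∏ l, (Fintype.card (ι l) : ℝ)) * B := by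
        rw [← mul_assoc, prod_erase_mul _ _ (mem_univ j)]

theorem chi_sum {α : Type*} (s : Finset α) (f : α → ZMod M) :
    (ZMod.stdAddChar (∑ i ∈ s, f i) : ℂ) = ∏ i ∈ s, (ZMod.stdAddChar (f i) : ℂ) := by
  classical
  induction s using Finset.induction_on with
  | empty => simp
  | insert a s ha ih => rw [sum_insert ha, prod_insert ha, AddChar.map_add_eq_mul, ih]

/-- the energy identity -/
theorem moment_eq {L : ℕ} (c : Fin L → ZMod M) (t : ℕ) :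
    ∑ ξ, ‖fam c ξ‖ ^ (2 * t) = M * (((univ : Finset ((Fin t → Fin L) × (Fin t → Fin L))).filter
      (fun p => ∑ i, c (p.1 i) = ∑ i, c (p.2 i))).card : ℝ) := by
  classical
  have h1 : ∀ ξ : ZMod M, fam c ξ ^ t = ∑ p : Fin t → Fin L, (ZMod.stdAddChar (ξ * ∑ i, c (p i)) : ℂ) := by
    intro ξ
    unfold fam
    rw [Fintype.sum_pow]
    apply sum_congr rfl; intro p _
    rw [mul_sum, chi_sum]
  have h2 : ∀ ξ : ZMod M, ((‖fam c ξ‖ ^ (2 * t) : ℝ) : ℂ) =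
      ∑ p : Fin t → Fin L, ∑ q : Fin t → Fin L,
        (ZMod.stdAddChar (ξ * (∑ i, c (p i) - ∑ i, c (q i))) : ℂ) := by
    intro ξ
    have h3 : ((‖fam c ξ‖ ^ (2 * t) : ℝ) : ℂ) = fam c ξ ^ t * (starRingEnd ℂ) (fam c ξ ^ t) := by
      rw [Complex.mul_conj, Complex.normSq_eq_norm_sq, norm_pow]
      push_cast; ring
    rw [h3, h1, map_sum, sum_mul_sum]
    apply sum_congr rfl; intro p _
    apply sum_congr rfl; intro q _
    rw [Pool.Agent.H373R2.NB.chi_conj, ← AddChar.map_add_eq_mul]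
    congr 1; ring
  have h4 : ((∑ ξ, ‖fam c ξ‖ ^ (2 * t) : ℝ) : ℂ) =
      ((M * (((univ : Finset ((Fin t → Fin L) × (Fin t → Fin L))).filter
      (fun p => ∑ i, c (p.1 i) = ∑ i, c (p.2 i))).card : ℝ) : ℝ) : ℂ) := by
    rw [Complex.ofReal_sum]
    simp_rw [h2]
    rw [sum_comm]
    have h5 : ∀ p : Fin t → Fin L, ∑ ξ : ZMod M, ∑ q : Fin t → Fin L,
        (ZMod.stdAddChar (ξ * (∑ i, c (p i) - ∑ i, c (q i))) : ℂ) =
        ∑ q : Fin t → Fin L, if ∑ i, c (p i) = ∑ i, c (q i) then (M : ℂ) else 0 := by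
      intro p
      rw [sum_comm]
      apply sum_congr rfl; intro q _
      rw [sum_chi]
      simp only [sub_eq_zero]
    rw [sum_congr rfl fun p _ => h5 p, card_filter]
    push_cast
    rw [Fintype.sum_prod_type, mul_sum]
    apply sum_congr rfl; intro p _
    rw [mul_sum]
    apply sum_congr rfl; intro q _
    split_ifs <;> simp
  exact_mod_cast h4

end Pool.Agent.Y834.CD
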