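import Mathlib
import Pool.Agent.Y834.CD.Core

/-!
# Decorrelation along families of bounded energy

For functions `g l` on the integers with values in `[0, 1]` and constants `δ l` such that the sums of
`(g l n - δ l) e(α n)` over `1 ≤ n ≤ 3 N` are at most `ε₁ N`, and for families of at most `N` in size
with energy at most `C L ^ (2 t) / N`, the number of `x` with given pattern is the expected one for
almost all tuples of indices.
-/

set_option autoImplicit false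

namespace Pool.Agent.Y834.CD

open Finset
open Pool.Agent.H373R2.NB (hat)

/-- the number of pairs of `t`-tuples of indices with the same sum -/
noncomputable def en (t : ℕ) {L : ℕ} (a : Fin L → ℤ) : ℕ :=
  ((univ : Finset ((Fin t → Fin L) × (Fin t → Fin L))).filter
    (fun p => ∑ i, a (p.1 i) = ∑ i, a (p.2 i))).card

/-- the exponential sum `∑ (g n - δ) e(α n)`, `1 ≤ n ≤ N` -/
noncomputable def es (g : ℤ → ℝ) (δ : ℝ) (N : ℕ) (α : ℝ) : ℂ :=
  ∑ n ∈ Icc 1 N, ((g n - δ : ℝ) : ℂ) * Complex.exp (2 * Real.pi * (α * n : ℝ) * Complex.I)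

section
variable {M : ℕ} [NeZero M]

/-- few large Fourier coefficients from the energy -/
theorem spectrum {t L N : ℕ} (a : Fin L → ℤ) {C τ : ℝ} (hτ : 0 < τ) (hL : 0 < L) (hN : 0 < N)
    (ha : ∀ i, |a i| ≤ N) (hM : 2 * t * N < M) (hE : (en t a : ℝ) * N ≤ C * (L : ℝ) ^ (2 * t)) :
    (((univ : Finset (ZMod M)).filter (fun ξ => τ * Fintype.card (Fin L) ≤
      ‖fam (fun i => (a i : ZMod M)) ξ‖)).card : ℝ) ≤ (M : ℝ) / N * C / τ ^ (2 * t) := by
  classical
  set R := (univ : Finset (ZMod M)).filter (fun ξ => τ * Fintype.card (Fin L) ≤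
      ‖fam (fun i => (a i : ZMod M)) ξ‖) with hR
  have hL0 : (0 : ℝ) < L := by exact_mod_cast hL
  have hN0 : (0 : ℝ) < N := by exact_mod_cast hN
  have hM0 : (0 : ℝ) < M := by exact_mod_cast Nat.pos_of_ne_zero (NeZero.ne M)
  have h1 := moment_eq (M := M) (fun i => (a i : ZMod M)) t
  have h2 : (((univ : Finset ((Fin t → Fin L) × (Fin t → Fin L))).filter
      (fun p => ∑ i, ((a (p.1 i) : ℤ) : ZMod M) = ∑ i, ((a (p.2 i) : ℤ) : ZMod M))).card : ℝ) = en t a := by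
    unfold en
    congr 2
    apply filter_congr
    intro p _
    constructor
    · intro h
      have h3 : ((∑ i, a (p.1 i) : ℤ) : ZMod M) = ((∑ i, a (p.2 i) : ℤ) : ZMod M) := by
        push_cast; exact h
      rw [ZMod.intCast_eq_intCast_iff_dvd_sub] at h3
      have hb : ∀ q : Fin t → Fin L, |∑ i, a (q i)| ≤ t * N := by
        intro q
        refine (abs_sum_le_sum_abs _ _).trans ?_
        calc ∑ i, |a (q i)| ≤ ∑ _i : Fin t, (N : ℤ) := sum_le_sum fun i _ => ha _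
          _ = t * N := by simp
      have h4 : |∑ i, a (p.2 i) - ∑ i, a (p.1 i)| < M := by
        have b1 := abs_le.1 (hb p.1)
        have b2 := abs_le.1 (hb p.2)
        have hM' : (2 * t * N : ℤ) < M := by exact_mod_cast hM
        rw [abs_lt]; constructor <;> linarith [b1.1, b1.2, b2.1, b2.2]
      have h5 := Int.eq_zero_of_abs_lt_dvd h3 h4
      linarith
    · intro h
      have h3 : ((∑ i, a (p.1 i) : ℤ) : ZMod M) = ((∑ i, a (p.2 i) : ℤ) : ZMod M) := by rw [h]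
      push_cast at h3; exact h3
  rw [h2] at h1
  have h3 : (R.card : ℝ) * (τ * L) ^ (2 * t) ≤ M * en t a := by
    rw [← h1]
    calc (R.card : ℝ) * (τ * L) ^ (2 * t) = ∑ _ξ ∈ R, (τ * L) ^ (2 * t) := by
          rw [sum_const, nsmul_eq_mul]
      _ ≤ ∑ ξ ∈ R, ‖fam (fun i => (a i : ZMod M)) ξ‖ ^ (2 * t) := by
          apply sum_le_sum; intro ξ hξ
          rw [hR, mem_filter, Fintype.card_fin] at hξ
          exact pow_le_pow_left₀ (by positivity) hξ.2 _
      _ ≤ ∑ ξ, ‖fam (fun i => (a i : ZMod M)) ξ‖ ^ (2 * t) :=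
          sum_le_sum_of_subset_of_nonneg (subset_univ _) (fun _ _ _ => by positivity)
  have h4 : (R.card : ℝ) * (τ ^ (2 * t) * N) * (L : ℝ) ^ (2 * t) ≤ (M * C) * (L : ℝ) ^ (2 * t) := by
    calc (R.card : ℝ) * (τ ^ (2 * t) * N) * (L : ℝ) ^ (2 * t)
        = (R.card : ℝ) * (τ * L) ^ (2 * t) * N := by rw [mul_pow]; ring
      _ ≤ M * en t a * N := mul_le_mul_of_nonneg_right h3 hN0.le
      _ = M * (en t a * N) := by ring
      _ ≤ M * (C * (L : ℝ) ^ (2 * t)) := mul_le_mul_of_nonneg_left hE hM0.le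
      _ = _ := by ring
  have h5 := le_of_mul_le_mul_right h4 (by positivity)
  rw [div_mul_eq_mul_div, div_div, le_div_iff₀ (by positivity)]
  calc (R.card : ℝ) * (N * τ ^ (2 * t)) = (R.card : ℝ) * (τ ^ (2 * t) * N) := by ring
    _ ≤ _ := h5

/-- a function of an integer in `[1, P]`, zero elsewhere -/
noncomputable def onInt (P : ℕ) (g : ℤ → ℝ) (z : ZMod M) : ℝ :=
  if 1 ≤ z.val ∧ z.val ≤ P then g z.val else 0

theorem sum_zmod {β : Type*} [AddCommMonoid β] (F : ℕ → β) :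
    ∑ z : ZMod M, F z.val = ∑ n ∈ range M, F n := by
  obtain ⟨m, hm⟩ : ∃ m, M = m + 1 := ⟨M - 1, by have := Nat.pos_of_ne_zero (NeZero.ne M); omega⟩
  subst hm
  exact Fin.sum_univ_eq_sum_range F (m + 1)

theorem chi_exp (ξ : ZMod M) (n : ℕ) : (ZMod.stdAddChar (ξ * (n : ZMod M)) : ℂ) =
    Complex.exp (2 * Real.pi * (((ξ.val : ℝ) / M) * n : ℝ) * Complex.I) := by
  have h1 : ξ * (n : ZMod M) = (((ξ.val * n : ℕ) : ℤ) : ZMod M) := by
    push_cast
    rw [ZMod.natCast_zmod_val]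
  rw [h1, ZMod.stdAddChar_coe]
  congr 1
  push_cast
  ring

theorem hat_onInt {P : ℕ} (hP : P < M) (g : ℤ → ℝ) (δ : ℝ) (ξ : ZMod M) :
    hat (onInt P (fun n => g n - δ)) ξ = es g δ P ((ξ.val : ℝ) / M) := by
  unfold hat es
  have h1 : ∀ z : ZMod M, ((onInt P (fun n => g n - δ) z : ℝ) : ℂ) * ZMod.stdAddChar (ξ * z) =
      (fun n : ℕ => if 1 ≤ n ∧ n ≤ P then ((g n - δ : ℝ) : ℂ) *
        Complex.exp (2 * Real.pi * (((ξ.val : ℝ) / M) * n : ℝ) * Complex.I) else 0) z.val := by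
    intro z
    simp only [onInt]
    split_ifs with h
    · rw [← chi_exp, ZMod.natCast_zmod_val]
    · simp
  have h2 := sum_zmod (M := M) (fun n : ℕ => if 1 ≤ n ∧ n ≤ P then ((g n - δ : ℝ) : ℂ) *
        Complex.exp (2 * Real.pi * (((ξ.val : ℝ) / M) * n : ℝ) * Complex.I) else 0)
  refine (sum_congr rfl fun z _ => h1 z).trans (h2.trans ?_)
  rw [← sum_filter]
  apply sum_congr _ (fun n _ => rfl)
  ext n
  simp only [mem_filter, mem_range, mem_Icc]
  omega

theorem onInt_shift {P : ℕ} (hP : P < M) (g : ℤ → ℝ) {x : ZMod M} {a : ℤ} (h1 : 0 < (x.val : ℤ) + a)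
    (h2 : (x.val : ℤ) + a ≤ P) : onInt P g (x + (a : ZMod M)) = g (x.val + a) := by
  obtain ⟨n, hn⟩ : ∃ n : ℕ, (x.val : ℤ) + a = n := ⟨((x.val : ℤ) + a).toNat, by omega⟩
  have h3 : x + (a : ZMod M) = ((n : ℕ) : ZMod M) := by
    have h4 : (((x.val : ℤ) + a : ℤ) : ZMod M) = ((n : ℤ) : ZMod M) := by rw [hn]
    push_cast at h4
    rw [ZMod.natCast_zmod_val] at h4
    exact h4
  have h4 : (x + (a : ZMod M)).val = n := by
    rw [h3, ZMod.val_natCast_of_lt (by omega)]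
  unfold onInt
  rw [h4, if_pos (by omega), hn]

end

/-- telescoping -/
theorem telescope {k : ℕ} (G D : Fin k → ℝ) : ∏ l, G l - ∏ l, D l =
    ∑ i, ∏ l, (if l < i then D l else if l = i then G l - D l else G l) := by
  have h := Finset.prod_sub_ordered (univ : Finset (Fin k)) G (fun l => G l - D l)
  simp only [sub_sub_cancel] at h
  rw [h, sub_sub_cancel]
  apply sum_congr rfl
  intro i _
  rw [← prod_filter_mul_prod_filter_not univ (fun l => l < i)
    (fun l => if l < i then D l else if l = i then G l - D l else G l)]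
  have h1 : ∏ l ∈ univ.filter (fun l => l < i), (if l < i then D l else if l = i then G l - D l else G l) =
      ∏ l ∈ univ.filter (fun l => l < i), D l := by
    apply prod_congr rfl; intro l hl
    rw [mem_filter] at hl; rw [if_pos hl.2]
  have h2 : univ.filter (fun l => ¬ l < i) = insert i (univ.filter (fun l => i < l)) := by
    ext l
    simp only [mem_filter, mem_univ, true_and, mem_insert, not_lt]
    rw [le_iff_eq_or_lt]
    constructor
    · rintro (h | h)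
      · exact Or.inl h.symm
      · exact Or.inr h
    · rintro (h | h)
      · exact Or.inl h.symm
      · exact Or.inr h
  have h3 : ∏ l ∈ univ.filter (fun l => ¬ l < i), (if l < i then D l else if l = i then G l - D l else G l) =
      (G i - D i) * ∏ l ∈ univ.filter (fun l => i < l), G l := by
    rw [h2, prod_insert (by simp)]
    rw [if_neg (lt_irrefl i), if_pos rfl]
    congr 1
    apply prod_congr rfl; intro l hl
    rw [mem_filter] at hl
    rw [if_neg (not_lt.2 hl.2.le), if_neg hl.2.ne']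
  rw [h1, h3]
  ring

/-- decorrelation at almost all tuples, finite form -/
theorem finite_form {k t : ℕ} {C τ ε ε₁ : ℝ} (hτ : 0 < τ) (hε : 0 < ε)
    (hpar : ((2 * t + 4 : ℕ) : ℝ) ^ 2 * (((2 * t + 4 : ℕ) : ℝ) * C / τ ^ (2 * t) * ε₁ ^ 2 +
      τ ^ 2 * ((2 * t + 4 : ℕ) : ℝ) ^ 2) ≤ (ε ^ 3 / ((k : ℝ) + 1) ^ 2) ^ 2)
    {N : ℕ} (hN : 0 < N) (g : Fin k → ℤ → ℝ) (δ : Fin k → ℝ) (hg : ∀ l n, 0 ≤ g l n ∧ g l n ≤ 1)
    (hδ : ∀ l, 0 ≤ δ l ∧ δ l ≤ 1) (hes : ∀ l α, ‖es (g l) (δ l) (3 * N) α‖ ≤ ε₁ * N)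
    (L : Fin k → ℕ) (a : ∀ l, Fin (L l) → ℤ) (ha : ∀ l i, |a l i| ≤ N)
    (hE : ∀ l, (en t (a l) : ℝ) * N ≤ C * (L l : ℝ) ^ (2 * t)) (W : ℕ → ℝ) (hW : ∀ x, |W x| ≤ 1) :
    (((univ : Finset (∀ l, Fin (L l))).filter (fun v =>
      ε * N < |∑ x ∈ Ioc N (2 * N), W x * (∏ l, g l (x + a l (v l)) - ∏ l, δ l)|)).card : ℝ) ≤
      ε * ∏ l, (L l : ℝ) := by
  classical
  set bad := (univ : Finset (∀ l, Fin (L l))).filter (fun v =>
      ε * N < |∑ x ∈ Ioc N (2 * N), W x * (∏ l, g l (x + a l (v l)) - ∏ l, δ l)|) with hbad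
  have hN0 : (0 : ℝ) < N := by exact_mod_cast hN
  by_cases hL : ∃ l, L l = 0
  · obtain ⟨l, hl⟩ := hL
    have h1 : bad = ∅ := by
      apply filter_eq_empty_iff.2
      intro v _
      have := (v l).2
      omega
    rw [h1]
    simp only [card_empty, Nat.cast_zero]
    positivity
  push Not at hL
  set M : ℕ := (2 * t + 4) * N with hM
  have hMpos : 0 < M := Nat.mul_pos (by omega) hN
  have : NeZero M := ⟨hMpos.ne'⟩
  have hM1 : 2 * t * N < M := by rw [hM]; nlinarith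
  have hM2 : 3 * N < M := by rw [hM]; nlinarith
  set c₀ : ℝ := ((2 * t + 4 : ℕ) : ℝ) with hc₀
  have hc0 : 0 < c₀ := by rw [hc₀]; positivity
  have hMc : (M : ℝ) = c₀ * N := by rw [hM, hc₀]; push_cast; ring
  set c : ∀ l, Fin (L l) → ZMod M := fun l i => ((a l i : ℤ) : ZMod M) with hc
  set G : Fin k → ZMod M → ℝ := fun l => onInt (3 * N) (g l) with hG
  set D : Fin k → ZMod M → ℝ := fun l => onInt (3 * N) (fun _ => δ l) with hD
  have hGD : ∀ l z, G l z - D l z = onInt (3 * N) (fun n => g l n - δ l) z := by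
    intro l z
    simp only [hG, hD, onInt]
    split_ifs <;> simp
  have hG1 : ∀ l z, 0 ≤ G l z ∧ G l z ≤ 1 := by
    intro l z
    simp only [hG, onInt]
    split_ifs
    · exact hg l _
    · exact ⟨le_rfl, zero_le_one⟩
  have hD1 : ∀ l z, 0 ≤ D l z ∧ D l z ≤ 1 := by
    intro l z
    simp only [hD, onInt]
    split_ifs
    · exact hδ l
    · exact ⟨le_rfl, zero_le_one⟩
  set Φ : Fin k → Fin k → ZMod M → ℝ := fun i l z =>
    if l < i then D l z else if l = i then G l z - D l z else G l z with hΦ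
  have hΦ1 : ∀ i l z, |Φ i l z| ≤ 1 := by
    intro i l z
    have h1 := hG1 l z
    have h2 := hD1 l z
    simp only [hΦ]
    split_ifs
    · rw [abs_of_nonneg h2.1]; exact h2.2
    · rw [abs_le]; constructor <;> linarith
    · rw [abs_of_nonneg h1.1]; exact h1.2
  set w : ZMod M → ℝ := fun z => if N < z.val ∧ z.val ≤ 2 * N then W z.val else 0 with hw
  have hw1 : ∀ z, |w z| ≤ 1 := by
    intro z; simp only [hw]; split_ifs
    · exact hW _
    · simp
  -- the difference as a sum over the residues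
  have key : ∀ v : ∀ l, Fin (L l), ∑ x ∈ Ioc N (2 * N), W x * (∏ l, g l (x + a l (v l)) - ∏ l, δ l) =
      ∑ i, ∑ z, w z * ∏ l, Φ i l (z + c l (v l)) := by
    intro v
    have h1 : ∑ i, ∑ z, w z * ∏ l, Φ i l (z + c l (v l)) =
        ∑ z, w z * (∏ l, G l (z + c l (v l)) - ∏ l, D l (z + c l (v l))) := by
      rw [sum_comm]
      apply sum_congr rfl; intro z _
      rw [← mul_sum, telescope]
    have h2 : ∀ z : ZMod M, w z * (∏ l, G l (z + c l (v l)) - ∏ l, D l (z + c l (v l))) =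
        (fun n : ℕ => if N < n ∧ n ≤ 2 * N then W n * (∏ l, g l (n + a l (v l)) - ∏ l, δ l) else 0) z.val := by
      intro z
      simp only [hw]
      by_cases h : N < z.val ∧ z.val ≤ 2 * N
      · rw [if_pos h, if_pos h]
        have hb : ∀ l, 0 < (z.val : ℤ) + a l (v l) ∧ (z.val : ℤ) + a l (v l) ≤ ((3 * N : ℕ) : ℤ) := by
          intro l
          have := abs_le.1 (ha l (v l))
          push_cast
          constructor <;> omega
        congr 2
        · apply prod_congr rfl; intro l _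
          exact onInt_shift hM2 (g l) (hb l).1 (hb l).2
        · apply prod_congr rfl; intro l _
          exact onInt_shift hM2 (fun _ => δ l) (hb l).1 (hb l).2
      · rw [if_neg h, if_neg h, zero_mul]
    rw [h1]
    have h4 := sum_zmod (M := M) (fun n : ℕ => if N < n ∧ n ≤ 2 * N then
      W n * (∏ l, g l (n + a l (v l)) - ∏ l, δ l) else 0)
    refine Eq.symm ((sum_congr rfl fun z _ => h2 z).trans (h4.trans ?_))
    rw [← sum_filter]
    have h3 : (range M).filter (fun n => N < n ∧ n ≤ 2 * N) = Ioc N (2 * N) := by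
      ext n
      simp only [mem_filter, mem_range, mem_Ioc]
      omega
    rw [h3]
  -- the mean square
  set B : ℝ := ε ^ 3 / ((k : ℝ) + 1) ^ 2 * (N : ℝ) ^ 2 with hB
  have hB0 : 0 ≤ B := by rw [hB]; positivity
  have hms : ∀ i : Fin k, ∑ v : (∀ l, Fin (L l)), (∑ z, w z * ∏ l, Φ i l (z + c l (v l))) ^ 2 ≤
      (∏ l, (L l : ℝ)) * B := by
    intro i
    have hhat : ∀ ξ, ‖hat (Φ i i) ξ‖ ≤ ε₁ * N := by
      intro ξ
      have h1 : Φ i i = onInt (3 * N) (fun n => g i n - δ i) := by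
        ext z
        rw [← hGD i z]
        simp only [hΦ, lt_irrefl, if_false, if_true]
      rw [h1, hat_onInt hM2]
      exact hes i _
    have hK := spectrum (M := M) (a i) hτ (Nat.pos_of_ne_zero (hL i)) hN (ha i) hM1 (hE i)
    have hB2 : (M : ℝ) ^ 2 * ((M : ℝ) / N * C / τ ^ (2 * t) * (ε₁ * N) ^ 2 + τ ^ 2 * M ^ 2) ≤ B ^ 2 := by
      rw [hMc, hB]
      have e1 : c₀ * (N : ℝ) / N = c₀ := by field_simp
      rw [e1]
      calc (c₀ * N) ^ 2 * (c₀ * C / τ ^ (2 * t) * (ε₁ * N) ^ 2 + τ ^ 2 * (c₀ * N) ^ 2)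
          = (c₀ ^ 2 * (c₀ * C / τ ^ (2 * t) * ε₁ ^ 2 + τ ^ 2 * c₀ ^ 2)) * (N : ℝ) ^ 4 := by ring
        _ ≤ (ε ^ 3 / ((k : ℝ) + 1) ^ 2) ^ 2 * (N : ℝ) ^ 4 := mul_le_mul_of_nonneg_right hpar (by positivity)
        _ = _ := by ring
    have h2 := multilinear_small c (Φ i) (hΦ1 i) w hw1 i hhat hK hB0 hB2
    simp only [Fintype.card_fin] at h2
    exact h2
  have hsum : ∑ v : (∀ l, Fin (L l)), (∑ x ∈ Ioc N (2 * N), W x * (∏ l, g l (x + a l (v l)) -
      ∏ l, δ l)) ^ 2 ≤ ε ^ 3 * (N : ℝ) ^ 2 * ∏ l, (L l : ℝ) := by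
    calc _ = ∑ v : (∀ l, Fin (L l)), (∑ i, ∑ z, w z * ∏ l, Φ i l (z + c l (v l))) ^ 2 :=
          sum_congr rfl fun v _ => by rw [key v]
      _ ≤ ∑ v : (∀ l, Fin (L l)), (k : ℝ) * ∑ i, (∑ z, w z * ∏ l, Φ i l (z + c l (v l))) ^ 2 := by
          apply sum_le_sum; intro v _
          have := sq_sum_le_card_mul_sum_sq (s := (univ : Finset (Fin k)))
            (f := fun i => ∑ z, w z * ∏ l, Φ i l (z + c l (v l)))
          simpa using this
      _ = (k : ℝ) * ∑ i, ∑ v : (∀ l, Fin (L l)), (∑ z, w z * ∏ l, Φ i l (z + c l (v l))) ^ 2 := by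
          rw [← mul_sum, sum_comm]
      _ ≤ (k : ℝ) * ∑ _i : Fin k, (∏ l, (L l : ℝ)) * B :=
          mul_le_mul_of_nonneg_left (sum_le_sum fun i _ => hms i) (Nat.cast_nonneg _)
      _ = (k : ℝ) ^ 2 / ((k : ℝ) + 1) ^ 2 * (ε ^ 3 * (N : ℝ) ^ 2 * ∏ l, (L l : ℝ)) := by
          rw [sum_const, card_univ, Fintype.card_fin, nsmul_eq_mul, hB]; ring
      _ ≤ 1 * (ε ^ 3 * (N : ℝ) ^ 2 * ∏ l, (L l : ℝ)) := by
          apply mul_le_mul_of_nonneg_right _ (by positivity)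
          rw [div_le_one (by positivity)]
          exact pow_le_pow_left₀ (Nat.cast_nonneg _) (by linarith) 2
      _ = _ := one_mul _
  have h1 : (bad.card : ℝ) * (ε * N) ^ 2 ≤ ε ^ 3 * (N : ℝ) ^ 2 * ∏ l, (L l : ℝ) := by
    refine le_trans ?_ hsum
    calc (bad.card : ℝ) * (ε * N) ^ 2 = ∑ _v ∈ bad, (ε * N) ^ 2 := by rw [sum_const, nsmul_eq_mul]
      _ ≤ ∑ v ∈ bad, (∑ x ∈ Ioc N (2 * N), W x * (∏ l, g l (x + a l (v l)) - ∏ l, δ l)) ^ 2 := by
          apply sum_le_sum; intro v hv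
          rw [hbad, mem_filter] at hv
          rw [← sq_abs (∑ x ∈ Ioc N (2 * N), W x * (∏ l, g l (x + a l (v l)) - ∏ l, δ l))]
          exact pow_le_pow_left₀ (by positivity) hv.2.le 2
      _ ≤ _ := sum_le_sum_of_subset_of_nonneg (subset_univ _) (fun _ _ _ => sq_nonneg _)
  have h2 : (bad.card : ℝ) * (ε ^ 2 * (N : ℝ) ^ 2) ≤ (ε * ∏ l, (L l : ℝ)) * (ε ^ 2 * (N : ℝ) ^ 2) := by
    calc _ = (bad.card : ℝ) * (ε * N) ^ 2 := by ring
      _ ≤ _ := h1
      _ = _ := by ring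
  exact le_of_mul_le_mul_right h2 (by positivity)

/-- the choice of the parameters -/
theorem exists_par (k t : ℕ) {C ε : ℝ} (hC : 0 ≤ C) (hε : 0 < ε) : ∃ τ ε₁ : ℝ, 0 < τ ∧ 0 < ε₁ ∧
    ((2 * t + 4 : ℕ) : ℝ) ^ 2 * (((2 * t + 4 : ℕ) : ℝ) * C / τ ^ (2 * t) * ε₁ ^ 2 +
      τ ^ 2 * ((2 * t + 4 : ℕ) : ℝ) ^ 2) ≤ (ε ^ 3 / ((k : ℝ) + 1) ^ 2) ^ 2 := by
  set c₀ : ℝ := ((2 * t + 4 : ℕ) : ℝ) with hc₀
  have hc0 : 0 < c₀ := by rw [hc₀]; positivity
  set β : ℝ := ε ^ 3 / ((k : ℝ) + 1) ^ 2 with hβ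
  have hβ0 : 0 < β := by rw [hβ]; positivity
  set τ : ℝ := β / (2 * c₀ ^ 2) with hτ
  have hτ0 : 0 < τ := by rw [hτ]; positivity
  set q : ℝ := c₀ ^ 3 * (C + 1) / τ ^ (2 * t) with hq
  have hq0 : 0 < q := by rw [hq]; positivity
  refine ⟨τ, β / (2 * (q + 1)), hτ0, by positivity, ?_⟩
  have h1 : c₀ ^ 2 * (τ ^ 2 * c₀ ^ 2) = β ^ 2 / 4 := by
    rw [hτ]; field_simp; ring
  have h2 : c₀ ^ 2 * (c₀ * C / τ ^ (2 * t) * (β / (2 * (q + 1))) ^ 2) ≤ β ^ 2 / 4 := by
    have h3 : c₀ ^ 2 * (c₀ * C / τ ^ (2 * t)) ≤ q := by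
      rw [hq, ← mul_div_assoc]
      apply div_le_div_of_nonneg_right _ (by positivity)
      nlinarith [pow_pos hc0 3]
    calc _ = (c₀ ^ 2 * (c₀ * C / τ ^ (2 * t))) * (β / (2 * (q + 1))) ^ 2 := by ring
      _ ≤ q * (β / (2 * (q + 1))) ^ 2 := mul_le_mul_of_nonneg_right h3 (sq_nonneg _)
      _ = (β ^ 2 / 4) * (q / (q + 1) ^ 2) := by field_simp; ring
      _ ≤ (β ^ 2 / 4) * 1 := by
          apply mul_le_mul_of_nonneg_left _ (by positivity)
          rw [div_le_one (by positivity)]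
          nlinarith
      _ = _ := mul_one _
  calc _ = c₀ ^ 2 * (c₀ * C / τ ^ (2 * t) * (β / (2 * (q + 1))) ^ 2) + c₀ ^ 2 * (τ ^ 2 * c₀ ^ 2) := by ring
    _ ≤ β ^ 2 / 4 + β ^ 2 / 4 := add_le_add h2 h1.le
    _ ≤ β ^ 2 := by nlinarith [sq_nonneg β]

end Pool.Agent.Y834.CD
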