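import Mathlib
import Pool.Agent.Y834.CD.Main
import Pool.Agent.H373R2.NB.WeylSum

/-!
# The energy of the values of an integer polynomial
-/

set_option autoImplicit false

namespace Pool.Agent.Y834.CD

open Finset Polynomial
open Pool.Agent.Helper602.MK (ee)

theorem en_neg (t : ℕ) {L : ℕ} (a : Fin L → ℤ) : en t (fun i => -a i) = en t a := by
  unfold en
  congr 1
  apply filter_congr
  intro p _
  rw [sum_neg_distrib, sum_neg_distrib, neg_inj]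

theorem chi_ee {M : ℕ} [NeZero M] (ξ : ZMod M) (a : ℤ) : (ZMod.stdAddChar (ξ * (a : ZMod M)) : ℂ) =
    ee (((ξ.val : ℕ) : ℝ) * (a : ℝ) / M) := by
  have h1 : ξ * (a : ZMod M) = (((ξ.val : ℤ) * a : ℤ) : ZMod M) := by
    push_cast
    rw [ZMod.natCast_zmod_val]
  rw [h1, ZMod.stdAddChar_coe]
  unfold ee
  congr 1
  push_cast
  ring

theorem poly_energy_pos (P : ℤ[X]) (hP : 1 ≤ P.natDegree) (hl : 0 < P.leadingCoeff) (B : ℕ) (hB : 1 ≤ B) :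
    ∃ t₀ : ℕ, ∃ C : ℝ, 0 < C ∧ ∀ t : ℕ, t₀ ≤ t → ∀ L N : ℕ, 1 ≤ L → 1 ≤ N → N ≤ B * L ^ P.natDegree →
      (en t (fun m : Fin L => P.eval (((m : ℕ) + 1 : ℕ) : ℤ)) : ℝ) * N ≤ C * (L : ℝ) ^ (2 * t) := by
  classical
  obtain ⟨p, hp, C, hC, H⟩ := Pool.Agent.H373R2.NB.weyl_moment P hP hl B hB
  refine ⟨p, C, hC, fun t ht L N hL hN hNL => ?_⟩
  have : NeZero N := ⟨by omega⟩
  have hL0 : (0 : ℝ) < L := by exact_mod_cast hL
  have hN0 : (0 : ℝ) < N := by exact_mod_cast hN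
  set a : Fin L → ℤ := fun m => P.eval (((m : ℕ) + 1 : ℕ) : ℤ) with ha
  have h1 := moment_eq (M := N) (fun i => (a i : ZMod N)) t
  have h2 : (en t a : ℝ) ≤ (((univ : Finset ((Fin t → Fin L) × (Fin t → Fin L))).filter
      (fun p => ∑ i, ((a (p.1 i) : ℤ) : ZMod N) = ∑ i, ((a (p.2 i) : ℤ) : ZMod N))).card : ℝ) := by
    unfold en
    have : ((univ : Finset ((Fin t → Fin L) × (Fin t → Fin L))).filter
      (fun p => ∑ i, a (p.1 i) = ∑ i, a (p.2 i))).card ≤ ((univ : Finset ((Fin t → Fin L) × (Fin t → Fin L))).filter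
      (fun p => ∑ i, ((a (p.1 i) : ℤ) : ZMod N) = ∑ i, ((a (p.2 i) : ℤ) : ZMod N))).card := by
      apply card_le_card
      intro p hp
      rw [mem_filter] at hp ⊢
      refine ⟨hp.1, ?_⟩
      have h3 : ((∑ i, a (p.1 i) : ℤ) : ZMod N) = ((∑ i, a (p.2 i) : ℤ) : ZMod N) := by rw [hp.2]
      push_cast at h3; exact h3
    exact_mod_cast this
  have h3 : ∀ ξ : ZMod N, fam (fun i => (a i : ZMod N)) ξ =
      (fun r : ℕ => ∑ n ∈ Icc 1 L, ee ((r : ℝ) * ((P.eval (n : ℤ) : ℤ) : ℝ) / N)) ξ.val := by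
    intro ξ
    unfold fam
    simp only
    rw [Pool.Agent.H373R2.NB.sum_Icc_one, ← Fin.sum_univ_eq_sum_range
      (fun n => ee (((ξ.val : ℕ) : ℝ) * ((P.eval ((n + 1 : ℕ) : ℤ) : ℤ) : ℝ) / N)) L]
    apply sum_congr rfl; intro i _
    rw [chi_ee]
  have h4 : ∑ ξ : ZMod N, ‖fam (fun i => (a i : ZMod N)) ξ‖ ^ (2 * t) ≤ C * (L : ℝ) ^ (2 * t) := by
    have h5 := H L N hL hN hNL
    have h6 := sum_zmod (M := N) (fun r : ℕ =>
      (‖∑ n ∈ Icc 1 L, ee ((r : ℝ) * ((P.eval (n : ℤ) : ℤ) : ℝ) / N)‖ / L) ^ p)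
    have h7 : ∀ ξ : ZMod N, ‖fam (fun i => (a i : ZMod N)) ξ‖ ^ (2 * t) ≤
        (‖∑ n ∈ Icc 1 L, ee (((ξ.val : ℕ) : ℝ) * ((P.eval (n : ℤ) : ℤ) : ℝ) / N)‖ / L) ^ p * (L : ℝ) ^ (2 * t) := by
      intro ξ
      have h8 := norm_fam_le (fun i => (a i : ZMod N)) ξ
      rw [Fintype.card_fin] at h8
      rw [h3 ξ] at h8 ⊢
      simp only at h8 ⊢
      set z := ‖∑ n ∈ Icc 1 L, ee (((ξ.val : ℕ) : ℝ) * ((P.eval (n : ℤ) : ℤ) : ℝ) / N)‖ with hz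
      have hz0 : 0 ≤ z := norm_nonneg _
      have e1 : z ^ (2 * t) = (z / L) ^ (2 * t) * (L : ℝ) ^ (2 * t) := by
        rw [div_pow, div_mul_cancel₀ _ (by positivity)]
      rw [e1]
      apply mul_le_mul_of_nonneg_right _ (by positivity)
      exact pow_le_pow_of_le_one (by positivity) (by rw [div_le_one hL0]; exact h8) (by omega)
    calc _ ≤ ∑ ξ : ZMod N, (‖∑ n ∈ Icc 1 L, ee (((ξ.val : ℕ) : ℝ) * ((P.eval (n : ℤ) : ℤ) : ℝ) / N)‖ / L) ^ p *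
          (L : ℝ) ^ (2 * t) := sum_le_sum fun ξ _ => h7 ξ
      _ = (∑ ξ : ZMod N, (‖∑ n ∈ Icc 1 L, ee (((ξ.val : ℕ) : ℝ) * ((P.eval (n : ℤ) : ℤ) : ℝ) / N)‖ / L) ^ p) *
          (L : ℝ) ^ (2 * t) := by rw [sum_mul]
      _ ≤ C * (L : ℝ) ^ (2 * t) := by
          apply mul_le_mul_of_nonneg_right _ (by positivity)
          exact h6.le.trans h5
  calc (en t a : ℝ) * N ≤ _ * N := mul_le_mul_of_nonneg_right h2 hN0.le
    _ = _ := by rw [mul_comm]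
    _ = ∑ ξ : ZMod N, ‖fam (fun i => (a i : ZMod N)) ξ‖ ^ (2 * t) := h1.symm
    _ ≤ _ := h4

/-- the energy of the values of a nonconstant integer polynomial at `1, ..., L` -/
theorem poly_energy (P : ℤ[X]) (hP : 1 ≤ P.natDegree) (B : ℕ) (hB : 1 ≤ B) :
    ∃ t₀ : ℕ, ∃ C : ℝ, 0 < C ∧ ∀ t : ℕ, t₀ ≤ t → ∀ L N : ℕ, 1 ≤ L → 1 ≤ N → N ≤ B * L ^ P.natDegree →
      (en t (fun m : Fin L => P.eval (((m : ℕ) + 1 : ℕ) : ℤ)) : ℝ) * N ≤ C * (L : ℝ) ^ (2 * t) := by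
  have hne : P.leadingCoeff ≠ 0 := by
    intro h
    rw [leadingCoeff_eq_zero] at h
    rw [h, natDegree_zero] at hP
    omega
  rcases lt_or_gt_of_ne hne with h | h
  · obtain ⟨t₀, C, hC, H⟩ := poly_energy_pos (-P) (by rwa [natDegree_neg]) (by rw [leadingCoeff_neg]; linarith) B hB
    refine ⟨t₀, C, hC, fun t ht L N hL hN hNL => ?_⟩
    have h1 := H t ht L N hL hN (by rwa [natDegree_neg])
    simp only [eval_neg] at h1
    rw [en_neg] at h1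
    exact h1
  · exact poly_energy_pos P hP h B hB

end Pool.Agent.Y834.CD
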